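import Pool.Agent.Q286.MC.Defs
import Pool.Agent.TH126.LK_PT

/-!
# Bessel's inequality for the localising factors
-/

set_option autoImplicit false

namespace Pool.Agent.Q210.MC

open Finset Filter Topology MeasureTheory Complex MonoidAlgebra
open Pool.Agent.W184.NZ
open Pool.Agent.TH806 Pool.Agent.TH806.LK
open Pool.Agent.H306R2.SM (om cl Yf)
open Pool.Agent.H262R4.TM (Rng Ck)
open Pool.Agent.Q286.MC

noncomputable section

/-- the exponentials -/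
def ee (u θ : ℝ) : ℂ := Complex.exp (-((θ * u : ℝ) : ℂ) * I)

theorem ee_norm (u θ : ℝ) : ‖ee u θ‖ = 1 := Pool.Agent.TH126.LK_PT.norm_cis (θ * u)

theorem ee_cont (u : ℝ) : Continuous (ee u) := by
  unfold ee
  fun_prop

theorem ee_mul_conj (u v θ : ℝ) :
    ee u θ * starRingEnd ℂ (ee v θ) = Complex.exp ((-(u - v : ℝ) * I) * θ) := by
  unfold ee
  rw [← Complex.exp_conj, ← Complex.exp_add]
  congr 1
  simp only [map_mul, map_neg, Complex.conj_ofReal, Complex.conj_I]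
  push_cast
  ring

theorem orth {σ : ℝ} (hσ : σ = 1 ∨ σ = -1) (u₀ : ℝ) (j l : ℕ) :
    ∫ θ in (-1:ℝ)..1, ee (u₀ + σ * (Real.pi * j)) θ *
      starRingEnd ℂ (ee (u₀ + σ * (Real.pi * l)) θ) = if j = l then 2 else 0 := by
  simp only [ee_mul_conj]
  split_ifs with h
  · subst h
    simp only [sub_self, Complex.ofReal_zero, neg_zero, zero_mul, Complex.exp_zero]
    rw [intervalIntegral.integral_const]
    norm_num
  · have hjl : (j : ℝ) - l ≠ 0 := by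
      rw [sub_ne_zero]
      exact_mod_cast h
    have hσ0 : σ ≠ 0 := by rcases hσ with h | h <;> rw [h] <;> norm_num
    have hu : u₀ + σ * (Real.pi * j) - (u₀ + σ * (Real.pi * l)) = σ * (Real.pi * (j - l)) := by
      ring
    rw [hu]
    have hc : (-((σ * (Real.pi * (j - l)) : ℝ) : ℂ) * I) ≠ 0 := by
      refine mul_ne_zero (neg_ne_zero.mpr ?_) Complex.I_ne_zero
      rw [Complex.ofReal_ne_zero]
      exact mul_ne_zero hσ0 (mul_ne_zero Real.pi_ne_zero hjl)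
    rw [integral_exp_mul_complex hc]
    have h1 : Complex.exp (2 * (-((σ * (Real.pi * (j - l)) : ℝ) : ℂ) * I)) = 1 := by
      rw [Complex.exp_eq_one_iff]
      rcases hσ with h | h
      · refine ⟨-((j : ℤ) - l), ?_⟩
        rw [h]
        push_cast
        ring
      · refine ⟨(j : ℤ) - l, ?_⟩
        rw [h]
        push_cast
        ring
    have h2 : Complex.exp ((-((σ * (Real.pi * (j - l)) : ℝ) : ℂ) * I) * ((1 : ℝ) : ℂ)) =
        Complex.exp ((-((σ * (Real.pi * (j - l)) : ℝ) : ℂ) * I) * ((-1 : ℝ) : ℂ)) := by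
      rw [show (-((σ * (Real.pi * (j - l)) : ℝ) : ℂ) * I) * ((1 : ℝ) : ℂ) =
        (-((σ * (Real.pi * (j - l)) : ℝ) : ℂ) * I) * ((-1 : ℝ) : ℂ) +
          2 * (-((σ * (Real.pi * (j - l)) : ℝ) : ℂ) * I) by push_cast; ring]
      rw [Complex.exp_add, h1, mul_one]
    rw [h2, sub_self, zero_div]

/-- Bessel's inequality -/
theorem bessel (G : ℝ → ℂ) (hG : Continuous G) {B : ℝ}
    (hB : ∀ θ ∈ Set.Icc (-1:ℝ) 1, ‖G θ‖ ≤ B) (u₀ : ℝ) {σ : ℝ} (hσ : σ = 1 ∨ σ = -1) (m : ℕ) :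
    ∑ j ∈ range m, ‖∫ θ in (-1:ℝ)..1, G θ * ee (u₀ + σ * (Real.pi * j)) θ‖ ^ 2 ≤ 4 * B ^ 2 := by
  obtain ⟨e, he⟩ : ∃ e : ℕ → ℝ → ℂ, ∀ j, e j = ee (u₀ + σ * (Real.pi * j)) := ⟨_, fun _ => rfl⟩
  have hec : ∀ j, Continuous (e j) := fun j => by rw [he]; exact ee_cont _
  obtain ⟨c, hc⟩ : ∃ c : ℕ → ℂ, ∀ j, c j = ∫ θ in (-1:ℝ)..1, G θ * e j θ := ⟨_, fun _ => rfl⟩
  obtain ⟨S, hS⟩ : ∃ S : ℝ, S = ∑ j ∈ range m, ‖c j‖ ^ 2 := ⟨_, rfl⟩
  have hgoal : ∑ j ∈ range m, ‖∫ θ in (-1:ℝ)..1, G θ * ee (u₀ + σ * (Real.pi * j)) θ‖ ^ 2 =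
      S := by
    rw [hS]
    refine sum_congr rfl fun j _ => ?_
    rw [hc, he]
  rw [hgoal]
  obtain ⟨Q, hQ⟩ : ∃ Q : ℝ → ℂ, ∀ θ, Q θ = ∑ j ∈ range m, starRingEnd ℂ (c j) * e j θ :=
    ⟨_, fun _ => rfl⟩
  have hQc : Continuous Q := by
    have h1 : Q = fun θ => ∑ j ∈ range m, starRingEnd ℂ (c j) * e j θ := funext hQ
    rw [h1]
    exact continuous_finsetSum _ fun j _ => continuous_const.mul (hec j)
  have hI1 : ∫ θ in (-1:ℝ)..1, G θ * Q θ = (S : ℂ) := by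
    have h1 : ∀ θ, G θ * Q θ = ∑ j ∈ range m, starRingEnd ℂ (c j) * (G θ * e j θ) := by
      intro θ
      rw [hQ, mul_sum]
      exact sum_congr rfl fun j _ => by ring
    simp only [h1]
    have hi : ∀ j ∈ range m, IntervalIntegrable
        (fun θ => starRingEnd ℂ (c j) * (G θ * e j θ)) volume (-1) 1 := fun j _ =>
      (continuous_const.mul (hG.mul (hec j))).intervalIntegrable _ _
    rw [intervalIntegral.integral_finsetSum hi, hS]
    push_cast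
    refine sum_congr rfl fun j _ => ?_
    rw [intervalIntegral.integral_const_mul, ← hc, Complex.conj_mul']
  have hI2 : ∫ θ in (-1:ℝ)..1, ‖Q θ‖ ^ 2 = 2 * S := by
    have h0 : ((∫ θ in (-1:ℝ)..1, ‖Q θ‖ ^ 2 : ℝ) : ℂ) = ((2 * S : ℝ) : ℂ) := by
      rw [← intervalIntegral.integral_ofReal]
      have h1 : ∀ θ, ((‖Q θ‖ ^ 2 : ℝ) : ℂ) = ∑ j ∈ range m, ∑ l ∈ range m,
          (starRingEnd ℂ (c j) * c l) * (e j θ * starRingEnd ℂ (e l θ)) := by
        intro θ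
        rw [Complex.ofReal_pow, ← Complex.mul_conj', hQ, map_sum, sum_mul_sum]
        refine sum_congr rfl fun j _ => sum_congr rfl fun l _ => ?_
        rw [map_mul, Complex.conj_conj]
        ring
      simp only [h1]
      have hi1 : ∀ j ∈ range m, ∀ l ∈ range m, IntervalIntegrable (fun θ =>
          (starRingEnd ℂ (c j) * c l) * (e j θ * starRingEnd ℂ (e l θ))) volume (-1) 1 :=
        fun j _ l _ => (continuous_const.mul ((hec j).mul
          (Complex.continuous_conj.comp (hec l)))).intervalIntegrable _ _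
      have hi2 : ∀ j ∈ range m, IntervalIntegrable (fun θ => ∑ l ∈ range m,
          (starRingEnd ℂ (c j) * c l) * (e j θ * starRingEnd ℂ (e l θ))) volume (-1) 1 :=
        fun j _ => (continuous_finsetSum _ fun l _ => continuous_const.mul ((hec j).mul
          (Complex.continuous_conj.comp (hec l)))).intervalIntegrable _ _
      rw [intervalIntegral.integral_finsetSum hi2]
      have h2 : ∀ j ∈ range m, (∫ θ in (-1:ℝ)..1, ∑ l ∈ range m,
          (starRingEnd ℂ (c j) * c l) * (e j θ * starRingEnd ℂ (e l θ))) =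
          2 * ((‖c j‖ ^ 2 : ℝ) : ℂ) := by
        intro j hj
        rw [intervalIntegral.integral_finsetSum (hi1 j hj)]
        have h3 : ∀ l ∈ range m, (∫ θ in (-1:ℝ)..1,
            (starRingEnd ℂ (c j) * c l) * (e j θ * starRingEnd ℂ (e l θ))) =
            if j = l then (starRingEnd ℂ (c j) * c l) * 2 else 0 := by
          intro l _
          rw [intervalIntegral.integral_const_mul, he, he, orth hσ]
          split_ifs
          · rfl
          · rw [mul_zero]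
        rw [sum_congr rfl h3, sum_ite_eq (range m) j, if_pos hj, Complex.conj_mul']
        push_cast
        ring
      rw [sum_congr rfl h2, ← mul_sum, hS]
      push_cast
      ring
    exact_mod_cast h0
  have hS0 : 0 ≤ S := by
    rw [hS]
    exact sum_nonneg fun _ _ => by positivity
  have h1 : S ≤ ∫ θ in (-1:ℝ)..1, ‖G θ * Q θ‖ := by
    have h2 := intervalIntegral.norm_integral_le_integral_norm (f := fun θ => G θ * Q θ)
      (μ := volume) (show (-1:ℝ) ≤ 1 by norm_num)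
    rw [hI1, Complex.norm_real, Real.norm_of_nonneg hS0] at h2
    exact h2
  have hB0 : 0 ≤ B := (norm_nonneg _).trans (hB 0 ⟨by norm_num, by norm_num⟩)
  have h2 : (∫ θ in (-1:ℝ)..1, ‖G θ * Q θ‖) ≤ ∫ θ in (-1:ℝ)..1, (B ^ 2 + 1 / 4 * ‖Q θ‖ ^ 2) := by
    refine intervalIntegral.integral_mono_on (by norm_num)
      ((hG.mul hQc).norm.intervalIntegrable _ _)
      ((continuous_const.add (continuous_const.mul (hQc.norm.pow 2))).intervalIntegrable _ _)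
      fun θ hθ => ?_
    rw [norm_mul]
    have h3 := hB θ hθ
    have h4 := norm_nonneg (Q θ)
    have h5 := norm_nonneg (G θ)
    nlinarith [sq_nonneg (‖Q θ‖ / 2 - ‖G θ‖), mul_self_nonneg (‖Q θ‖ - 2 * B),
      mul_le_mul_of_nonneg_right h3 h4]
  have h3 : (∫ θ in (-1:ℝ)..1, (B ^ 2 + 1 / 4 * ‖Q θ‖ ^ 2)) = 2 * B ^ 2 + 1 / 4 * (2 * S) := by
    have hi1 : IntervalIntegrable (fun _ : ℝ => B ^ 2) volume (-1) 1 :=
      continuous_const.intervalIntegrable _ _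
    have hi2 : IntervalIntegrable (fun θ => 1 / 4 * ‖Q θ‖ ^ 2) volume (-1) 1 :=
      (continuous_const.mul (hQc.norm.pow 2)).intervalIntegrable _ _
    rw [intervalIntegral.integral_add hi1 hi2,
      intervalIntegral.integral_const_mul, hI2, intervalIntegral.integral_const]
    norm_num
  linarith

/-- the sum of the localising factors -/
theorem sum_DK {n Rs J : ℕ} {z : ℕ → ℂ} (hn : 1 ≤ n) (hRs : 1 ≤ Rs)
    (hz : ∀ i < J, ‖z i‖ ≤ RR Rs i) (u₀ : ℝ) {σ : ℝ} (hσ : σ = 1 ∨ σ = -1) (m : ℕ) :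
    ∑ j ∈ range m, ‖DK n Rs J hh (u₀ + σ * (Real.pi * j)) z‖ ^ 2 ≤ 16 := by
  have hG : Continuous fun θ : ℝ => ((hh θ : ℝ) : ℂ) * ∏ i ∈ range J, pf (KK n Rs i) θ (z i) := by
    refine Continuous.mul ?_ ?_
    · unfold hh
      fun_prop
    · exact continuous_finsetProd _ fun i _ =>
        Pool.Agent.TH126.LK_PT.pf_cont (KK n Rs i) continuous_id continuous_const
  have hB : ∀ θ ∈ Set.Icc (-1:ℝ) 1,
      ‖((hh θ : ℝ) : ℂ) * ∏ i ∈ range J, pf (KK n Rs i) θ (z i)‖ ≤ 2 := by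
    intro θ hθ
    have hθ1 : |θ| ≤ 1 := abs_le.mpr hθ
    have h1 : ∏ i ∈ range J, ‖pf (KK n Rs i) θ (z i)‖ ≤ 7 / 6 * (7 / 6) := by
      calc ∏ i ∈ range J, ‖pf (KK n Rs i) θ (z i)‖ ≤
          ∏ i ∈ range J, ((1 + Pool.Agent.TH126.LK_PT.dl Rs i) *
            (1 + Pool.Agent.TH126.LK_PT.dl Rs i)) :=
            Finset.prod_le_prod (fun i _ => norm_nonneg _) fun i hi =>
              Pool.Agent.TH126.LK_PT.pf_le n Rs i hn hRs θ hθ1 (z i) (hz i (Finset.mem_range.1 hi))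
        _ = (∏ i ∈ range J, (1 + Pool.Agent.TH126.LK_PT.dl Rs i)) *
            ∏ i ∈ range J, (1 + Pool.Agent.TH126.LK_PT.dl Rs i) := Finset.prod_mul_distrib
        _ ≤ 7 / 6 * (7 / 6) := by
            have h2 := Pool.Agent.TH126.LK_PT.dl_prod_upper Rs J hRs
            have h3 : 0 ≤ ∏ i ∈ range J, (1 + Pool.Agent.TH126.LK_PT.dl Rs i) :=
              Finset.prod_nonneg fun i _ => by
                linarith [Pool.Agent.TH126.LK_PT.dl_nonneg Rs i]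
            exact mul_le_mul h2 h2 h3 (by norm_num)
    have h2 : ‖((hh θ : ℝ) : ℂ)‖ ≤ 1 := by
      rw [Complex.norm_real, Real.norm_eq_abs, hh, abs_le]
      have h3 : θ ^ 2 ≤ 1 := by
        rw [← sq_abs]
        nlinarith [abs_nonneg θ]
      constructor
      · linarith
      · linarith [sq_nonneg θ]
    rw [norm_mul, norm_prod]
    have h3 : 0 ≤ ∏ i ∈ range J, ‖pf (KK n Rs i) θ (z i)‖ :=
      Finset.prod_nonneg fun i _ => norm_nonneg _
    calc ‖((hh θ : ℝ) : ℂ)‖ * ∏ i ∈ range J, ‖pf (KK n Rs i) θ (z i)‖ ≤ 1 * (7 / 6 * (7 / 6)) :=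
          mul_le_mul h2 h1 h3 (by norm_num)
      _ ≤ 2 := by norm_num
  have h := bessel _ hG hB u₀ hσ m
  refine le_trans (le_of_eq (sum_congr rfl fun j _ => ?_)) (h.trans (by norm_num))
  unfold DK
  congr 2
  refine intervalIntegral.integral_congr fun θ _ => ?_
  unfold ee
  ring

/-- comparison of exponents -/
theorem expo {V x k₀ ρ k : ℝ} (hV : 0 < V) (hk : |k - k₀| ≤ ρ) (hρV : ρ ^ 2 * V ≤ 1) :
    2 * k * x - k ^ 2 * V ≤ 4 + max (2 * (k₀ + ρ) * x - (k₀ + ρ) ^ 2 * V)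
      (2 * (k₀ - ρ) * x - (k₀ - ρ) ^ 2 * V) := by
  rw [abs_le] at hk
  obtain ⟨h1, h2⟩ := hk
  rcases le_total (k₀ * V) x with h | h
  · have h3 := le_max_left (2 * (k₀ + ρ) * x - (k₀ + ρ) ^ 2 * V)
      (2 * (k₀ - ρ) * x - (k₀ - ρ) ^ 2 * V)
    have h4 : -(4 * (ρ ^ 2 * V)) ≤ (k₀ + ρ - k) * (2 * x - (k₀ + ρ + k) * V) := by
      have e1 : 0 ≤ k₀ + ρ - k := by linarith
      have e2 : k₀ + ρ - k ≤ 2 * ρ := by linarith
      have e3 : -(2 * ρ * V) ≤ 2 * x - (k₀ + ρ + k) * V := by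
        have e4 : (k₀ + ρ + k) * V ≤ (2 * k₀ + 2 * ρ) * V :=
          mul_le_mul_of_nonneg_right (by linarith) hV.le
        linarith
      have e5 : 0 ≤ ρ := by linarith
      have e6 : 0 ≤ ρ * V := mul_nonneg e5 hV.le
      have e7 := mul_le_mul_of_nonneg_left e3 e1
      have e8 := mul_le_mul_of_nonneg_right e2 e6
      nlinarith
    nlinarith
  · have h3 := le_max_right (2 * (k₀ + ρ) * x - (k₀ + ρ) ^ 2 * V)
      (2 * (k₀ - ρ) * x - (k₀ - ρ) ^ 2 * V)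
    have h4 : -(4 * (ρ ^ 2 * V)) ≤ (k - (k₀ - ρ)) * ((k₀ - ρ + k) * V - 2 * x) := by
      have e1 : 0 ≤ k - (k₀ - ρ) := by linarith
      have e2 : k - (k₀ - ρ) ≤ 2 * ρ := by linarith
      have e3 : -(2 * ρ * V) ≤ (k₀ - ρ + k) * V - 2 * x := by
        have e4 : (2 * k₀ - 2 * ρ) * V ≤ (k₀ - ρ + k) * V :=
          mul_le_mul_of_nonneg_right (by linarith) hV.le
        linarith
      have e5 : 0 ≤ ρ := by linarith
      have e6 : 0 ≤ ρ * V := mul_nonneg e5 hV.le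
      have e7 := mul_le_mul_of_nonneg_left e3 e1
      have e8 := mul_le_mul_of_nonneg_right e2 e6
      nlinarith
    nlinarith

/-- the pointwise bound -/
theorem pt_bes {n Rs J : ℕ} {z : ℕ → ℂ} (hn : 1 ≤ n) (hRs : 1 ≤ Rs)
    (hz : ∀ i < J, ‖z i‖ ≤ RR Rs i) {V k₀ ρ σ : ℝ} {m : ℕ} (hσ : σ = 1 ∨ σ = -1) (hV : 0 < V)
    (hρ : 0 ≤ ρ) (hρV : ρ ^ 2 * V ≤ 1) (hm : ∀ j < m, Real.pi * j / V ≤ ρ)
    (hkn : |k₀| + ρ ≤ n) :
    ∑ j ∈ range m, Real.exp (-(kj k₀ σ V j ^ 2 * V)) *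
      (‖AZ n Rs J (kj k₀ σ V j) z‖ ^ 2 * ‖DK n Rs J hh (kj k₀ σ V j * V) z‖ ^ 2) ≤
    256 * Real.exp 4 * (Real.exp (-((k₀ + ρ) ^ 2 * V)) * ‖AZ n Rs J (k₀ + ρ) z‖ ^ 2 +
      Real.exp (-((k₀ - ρ) ^ 2 * V)) * ‖AZ n Rs J (k₀ - ρ) z‖ ^ 2) := by
  obtain ⟨x, hx⟩ : ∃ x : ℝ, x = ∑ i ∈ range J, (z i).re := ⟨_, rfl⟩
  have hAZ := fun a ha => (Pool.Agent.TH126.LK_PT.t_PT.2 n Rs J z hn hRs hz).1 a ha
  rw [← hx] at hAZ
  obtain ⟨R, hR⟩ : ∃ R : ℝ, R = Real.exp (-((k₀ + ρ) ^ 2 * V)) * ‖AZ n Rs J (k₀ + ρ) z‖ ^ 2 +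
      Real.exp (-((k₀ - ρ) ^ 2 * V)) * ‖AZ n Rs J (k₀ - ρ) z‖ ^ 2 := ⟨_, rfl⟩
  rw [← hR]
  have hR0 : 0 ≤ R := by rw [hR]; positivity
  have habs : ∀ k : ℝ, |k - k₀| ≤ ρ → |k| ≤ n := by
    intro k hk
    have h1 := abs_add_le (k - k₀) k₀
    rw [sub_add_cancel] at h1
    linarith
  have hA : ∀ k : ℝ, |k| ≤ n →
      Real.exp (2 * k * x - k ^ 2 * V) ≤ 4 * (Real.exp (-(k ^ 2 * V)) * ‖AZ n Rs J k z‖ ^ 2) := by
    intro k hk
    have h1 := (hAZ k hk).1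
    have h2 : Real.exp (k * x) ^ 2 ≤ 4 * ‖AZ n Rs J k z‖ ^ 2 := by
      have h3 : Real.exp (k * x) ≤ 2 * ‖AZ n Rs J k z‖ := by linarith
      have h4 := pow_le_pow_left₀ (Real.exp_pos _).le h3 2
      linarith
    have h5 : Real.exp (2 * k * x - k ^ 2 * V) = Real.exp (-(k ^ 2 * V)) * Real.exp (k * x) ^ 2 := by
      rw [← Real.exp_nat_mul, ← Real.exp_add]
      congr 1
      push_cast
      ring
    rw [h5]
    have h6 := mul_le_mul_of_nonneg_left h2 (Real.exp_pos (-(k ^ 2 * V))).le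
    linarith
  have hkp : |k₀ + ρ| ≤ n := habs _ (by rw [add_sub_cancel_left, abs_of_nonneg hρ])
  have hkm : |k₀ - ρ| ≤ n := habs _ (by
    rw [show k₀ - ρ - k₀ = -ρ by ring, abs_neg, abs_of_nonneg hρ])
  have hR2 : Real.exp (2 * (k₀ + ρ) * x - (k₀ + ρ) ^ 2 * V) +
      Real.exp (2 * (k₀ - ρ) * x - (k₀ - ρ) ^ 2 * V) ≤ 4 * R := by
    have h1 := hA _ hkp
    have h2 := hA _ hkm
    rw [hR]
    linarith
  have hkj : ∀ j < m, |kj k₀ σ V j - k₀| ≤ ρ := by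
    intro j hj
    unfold kj
    rw [add_sub_cancel_left, abs_mul]
    have h1 : |σ| = 1 := by rcases hσ with h | h <;> rw [h] <;> norm_num
    rw [h1, one_mul, abs_of_nonneg (by positivity)]
    exact hm j hj
  have hterm : ∀ j ∈ range m, Real.exp (-(kj k₀ σ V j ^ 2 * V)) *
      (‖AZ n Rs J (kj k₀ σ V j) z‖ ^ 2 * ‖DK n Rs J hh (kj k₀ σ V j * V) z‖ ^ 2) ≤
      16 * Real.exp 4 * R * ‖DK n Rs J hh (k₀ * V + σ * (Real.pi * j)) z‖ ^ 2 := by
    intro j hj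
    have hj' := hkj j (mem_range.mp hj)
    obtain ⟨k, hk⟩ : ∃ k : ℝ, k = kj k₀ σ V j := ⟨_, rfl⟩
    have hkV : kj k₀ σ V j * V = k₀ * V + σ * (Real.pi * j) := by
      unfold kj
      field_simp
    rw [hkV, ← hk]
    rw [← hk] at hj'
    have h1 := (hAZ k (habs k hj')).2
    have h2 : ‖AZ n Rs J k z‖ ^ 2 ≤ 4 * Real.exp (k * x) ^ 2 := by
      have h4 := pow_le_pow_left₀ (norm_nonneg _) h1 2
      linarith
    have h3 : Real.exp (-(k ^ 2 * V)) * ‖AZ n Rs J k z‖ ^ 2 ≤ 16 * Real.exp 4 * R := by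
      have h5 : Real.exp (2 * k * x - k ^ 2 * V) =
          Real.exp (-(k ^ 2 * V)) * Real.exp (k * x) ^ 2 := by
        rw [← Real.exp_nat_mul, ← Real.exp_add]
        congr 1
        push_cast
        ring
      have h6 := mul_le_mul_of_nonneg_left h2 (Real.exp_pos (-(k ^ 2 * V))).le
      have h7 := Real.exp_le_exp.mpr (expo (x := x) hV hj' hρV)
      rw [Real.exp_add] at h7
      have h8 : Real.exp (max (2 * (k₀ + ρ) * x - (k₀ + ρ) ^ 2 * V)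
          (2 * (k₀ - ρ) * x - (k₀ - ρ) ^ 2 * V)) ≤ 4 * R := by
        refine le_trans ?_ hR2
        rcases max_choice (2 * (k₀ + ρ) * x - (k₀ + ρ) ^ 2 * V)
          (2 * (k₀ - ρ) * x - (k₀ - ρ) ^ 2 * V) with h | h
        · rw [h]
          have := Real.exp_pos (2 * (k₀ - ρ) * x - (k₀ - ρ) ^ 2 * V)
          linarith
        · rw [h]
          have := Real.exp_pos (2 * (k₀ + ρ) * x - (k₀ + ρ) ^ 2 * V)
          linarith
      have h9 := mul_le_mul_of_nonneg_left h8 (Real.exp_pos 4).le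
      linarith
    calc Real.exp (-(k ^ 2 * V)) * (‖AZ n Rs J k z‖ ^ 2 *
        ‖DK n Rs J hh (k₀ * V + σ * (Real.pi * j)) z‖ ^ 2) =
        (Real.exp (-(k ^ 2 * V)) * ‖AZ n Rs J k z‖ ^ 2) *
          ‖DK n Rs J hh (k₀ * V + σ * (Real.pi * j)) z‖ ^ 2 := by ring
      _ ≤ _ := mul_le_mul_of_nonneg_right h3 (sq_nonneg _)
  refine (sum_le_sum hterm).trans ?_
  rw [← mul_sum]
  have h1 := sum_DK hn hRs hz (k₀ * V) hσ m
  have h2 : 0 ≤ 16 * Real.exp 4 * R := by positivity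
  have h3 := mul_le_mul_of_nonneg_left h1 h2
  linarith

/-- **BES.** -/
theorem bes : P_BES := by
  refine ⟨256 * Real.exp 4, by positivity, ?_⟩
  intro n Rs J I hI hn hRs κ T hδ E hE k₀ η σ m hσ hV hη0 hη1 hm hkn
  have hhc : Continuous hh := by unfold hh; fun_prop
  obtain ⟨ρ, hρ⟩ : ∃ ρ : ℝ, ρ = η / Real.sqrt (VV I J) := ⟨_, rfl⟩
  rw [← hρ] at hkn ⊢
  obtain ⟨V, hVdef⟩ : ∃ V : ℝ, V = VV I J := ⟨_, rfl⟩
  rw [← hVdef] at hV hm hρ ⊢
  have hsq : Real.sqrt V * Real.sqrt V = V := Real.mul_self_sqrt hV.le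
  have hsp : 0 < Real.sqrt V := Real.sqrt_pos.mpr hV
  have hρ0 : 0 ≤ ρ := by rw [hρ]; positivity
  have hρV : ρ ^ 2 * V ≤ 1 := by
    have h1 : ρ ^ 2 * V = η ^ 2 := by
      rw [hρ, div_pow, Real.sq_sqrt hV.le]
      field_simp
    rw [h1]
    exact pow_le_one₀ hη0 hη1
  have hmj : ∀ j < m, Real.pi * j / V ≤ ρ := by
    intro j hj
    rw [div_le_iff₀ hV, hρ]
    have h1 : η / Real.sqrt V * V = η * Real.sqrt V := by
      nth_rewrite 2 [← hsq]
      field_simp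
    rw [h1]
    refine le_trans ?_ hm
    exact mul_le_mul_of_nonneg_left (by exact_mod_cast hj.le) Real.pi_pos.le
  have cz : ∀ i, Continuous fun t => zz I t i :=
    (Pool.Agent.TH126.LK_PT.t_PT.1 n Rs J I k₀ 0 hh hI hhc).2.2.1
  have hgm : MeasurableSet {t | gd Rs J I t} := by
    have : {t | gd Rs J I t} = ⋂ i, ⋂ (_ : i < J), {t | ‖zz I t i‖ ≤ RR Rs i} := by
      ext t; simp [gd]
    rw [this]
    exact MeasurableSet.iInter fun i => MeasurableSet.iInter fun _ =>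
      measurableSet_le (cz i).norm.measurable measurable_const
  have iom : IntegrableOn (fun t => om κ (κ / T) t) (Set.Ioi 0) := om_int0 _ hδ
  have iF : ∀ {F : ℝ → ℝ} {C : ℝ}, Continuous F → (∀ t, |F t| ≤ C) →
      IntegrableOn (fun t => om κ (κ / T) t * F t) (Set.Ioi 0) := by
    intro F C hF hC
    refine iom.mul_bdd (c := C) hF.aestronglyMeasurable (Eventually.of_forall fun t => ?_)
    rw [Real.norm_eq_abs]; exact hC t
  have iA : ∀ a : ℝ, IntegrableOn (fun t => om κ (κ / T) t * ‖AZ n Rs J a (zz I t)‖ ^ 2)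
      (Set.Ioi 0) := by
    intro a
    obtain ⟨cA, -, -, B, hB⟩ := Pool.Agent.TH126.LK_PT.t_PT.1 n Rs J I a 0 hh hI hhc
    refine iF (cA.norm.pow 2) (C := B ^ 2) fun t => ?_
    rw [abs_of_nonneg (sq_nonneg _)]
    exact pow_le_pow_left₀ (norm_nonneg _) (hB t).1 2
  have iAD : ∀ a u : ℝ, IntegrableOn (fun t => om κ (κ / T) t * AD n Rs J I a u t)
      (Set.Ioi 0) := by
    intro a u
    obtain ⟨cA, cD, -, B, hB⟩ := Pool.Agent.TH126.LK_PT.t_PT.1 n Rs J I a u hh hI hhc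
    have cAD : Continuous (AD n Rs J I a u) := by
      unfold AD; exact (cA.norm.pow 2).mul (cD.norm.pow 2)
    refine iF cAD (C := B ^ 2 * B ^ 2) fun t => ?_
    have h0 : 0 ≤ AD n Rs J I a u t := by unfold AD; positivity
    rw [abs_of_nonneg h0]
    unfold AD
    have h1 := (hB t).1
    have h2 := (hB t).2.1
    gcongr
  have hsub1 : Set.Ioi (0:ℝ) ∩ (E ∩ {t | gd Rs J I t}) ⊆ Set.Ioi (0:ℝ) := Set.inter_subset_left
  have hsub2 : Set.Ioi (0:ℝ) ∩ (E ∩ {t | gd Rs J I t}) ⊆ Set.Ioi (0:ℝ) ∩ E :=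
    Set.inter_subset_inter_right _ Set.inter_subset_left
  have hsub3 : Set.Ioi (0:ℝ) ∩ E ⊆ Set.Ioi (0:ℝ) := Set.inter_subset_left
  have hSm : MeasurableSet (Set.Ioi (0:ℝ) ∩ (E ∩ {t | gd Rs J I t})) :=
    measurableSet_Ioi.inter (hE.inter hgm)
  -- the left side as one integral
  have hL : ∑ j ∈ range m, Real.exp (-(kj k₀ σ V j ^ 2 * V)) *
      (∫ t in Set.Ioi (0:ℝ) ∩ (E ∩ {t | gd Rs J I t}),
        om κ (κ / T) t * AD n Rs J I (kj k₀ σ V j) (kj k₀ σ V j * V) t) =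
      ∫ t in Set.Ioi (0:ℝ) ∩ (E ∩ {t | gd Rs J I t}), ∑ j ∈ range m,
        Real.exp (-(kj k₀ σ V j ^ 2 * V)) *
          (om κ (κ / T) t * AD n Rs J I (kj k₀ σ V j) (kj k₀ σ V j * V) t) := by
    rw [integral_finsetSum _ fun j _ => ((iAD _ _).mono_set hsub1).const_mul _]
    exact sum_congr rfl fun j _ => (integral_const_mul _ _).symm
  rw [hL]
  have iR : IntegrableOn (fun t => 256 * Real.exp 4 *
      (Real.exp (-((k₀ + ρ) ^ 2 * V)) * (om κ (κ / T) t * ‖AZ n Rs J (k₀ + ρ) (zz I t)‖ ^ 2) +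
        Real.exp (-((k₀ - ρ) ^ 2 * V)) * (om κ (κ / T) t * ‖AZ n Rs J (k₀ - ρ) (zz I t)‖ ^ 2)))
      (Set.Ioi 0) :=
    (((iA _).const_mul _).add ((iA _).const_mul _)).const_mul _
  have h1 : (∫ t in Set.Ioi (0:ℝ) ∩ (E ∩ {t | gd Rs J I t}), ∑ j ∈ range m,
        Real.exp (-(kj k₀ σ V j ^ 2 * V)) *
          (om κ (κ / T) t * AD n Rs J I (kj k₀ σ V j) (kj k₀ σ V j * V) t)) ≤
      ∫ t in Set.Ioi (0:ℝ) ∩ (E ∩ {t | gd Rs J I t}), 256 * Real.exp 4 *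
      (Real.exp (-((k₀ + ρ) ^ 2 * V)) * (om κ (κ / T) t * ‖AZ n Rs J (k₀ + ρ) (zz I t)‖ ^ 2) +
        Real.exp (-((k₀ - ρ) ^ 2 * V)) *
          (om κ (κ / T) t * ‖AZ n Rs J (k₀ - ρ) (zz I t)‖ ^ 2)) := by
    refine setIntegral_mono_on (integrable_finsetSum _ fun j _ =>
      ((iAD _ _).mono_set hsub1).const_mul _) (iR.mono_set hsub1) hSm fun t ht => ?_
    have hom : 0 ≤ om κ (κ / T) t := om_nn κ hδ (le_of_lt ht.1)
    have h2 := pt_bes (m := m) hn hRs (fun i hi => ht.2.2 i hi) hσ hV hρ0 hρV hmj hkn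
    have h3 := mul_le_mul_of_nonneg_left h2 hom
    refine le_trans (le_of_eq ?_) (h3.trans (le_of_eq ?_))
    · rw [mul_sum]
      refine sum_congr rfl fun j _ => ?_
      unfold AD
      ring
    · ring
  refine h1.trans ?_
  have h2 : (∫ t in Set.Ioi (0:ℝ) ∩ (E ∩ {t | gd Rs J I t}), 256 * Real.exp 4 *
      (Real.exp (-((k₀ + ρ) ^ 2 * V)) * (om κ (κ / T) t * ‖AZ n Rs J (k₀ + ρ) (zz I t)‖ ^ 2) +
        Real.exp (-((k₀ - ρ) ^ 2 * V)) *
          (om κ (κ / T) t * ‖AZ n Rs J (k₀ - ρ) (zz I t)‖ ^ 2))) ≤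
      ∫ t in Set.Ioi (0:ℝ) ∩ E, 256 * Real.exp 4 *
      (Real.exp (-((k₀ + ρ) ^ 2 * V)) * (om κ (κ / T) t * ‖AZ n Rs J (k₀ + ρ) (zz I t)‖ ^ 2) +
        Real.exp (-((k₀ - ρ) ^ 2 * V)) *
          (om κ (κ / T) t * ‖AZ n Rs J (k₀ - ρ) (zz I t)‖ ^ 2)) := by
    refine setIntegral_mono_set (iR.mono_set hsub3) ?_ (LE.le.eventuallyLE hsub2)
    refine (ae_restrict_iff' (measurableSet_Ioi.inter hE)).mpr (Eventually.of_forall
      fun t ht => ?_)
    have hom : 0 ≤ om κ (κ / T) t := om_nn κ hδ (le_of_lt ht.1)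
    simp only [Pi.zero_apply]
    positivity
  refine h2.trans (le_of_eq ?_)
  rw [integral_const_mul, integral_add (((iA _).mono_set hsub3).const_mul _)
    (((iA _).mono_set hsub3).const_mul _), integral_const_mul, integral_const_mul]

end

end Pool.Agent.Q210.MC
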