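import Pool.Agent.Q286.MC.Defs

/-!
# The coefficients of the product of the truncated exponentials
-/

set_option autoImplicit false

namespace Pool.Agent.Q210.MC

open Finset Pool.Agent.Q286.MC Pool.Agent.TH806.LK Pool.Agent.W184.NZ

noncomputable section

/-- the characters -/
def chi (t : ℝ) : ℕ →* ℂ where
  toFun d := (d : ℂ) ^ (-(1 / 2 + t * Complex.I))
  map_one' := by rw [Nat.cast_one, Complex.one_cpow]
  map_mul' a b := by
    rw [Nat.cast_mul]
    exact Complex.natCast_mul_natCast_cpow a b _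

theorem chi_apply (t : ℝ) (d : ℕ) : chi t d = (d : ℂ) ^ (-(1 / 2 + t * Complex.I)) := rfl

/-- Dirichlet polynomials with bounded coefficients -/
def Good (P : Finset ℕ) (k D : ℝ) (F : ℝ → ℂ) : Prop := ∃ (S : Finset ℕ) (a : ℕ → ℝ),
  (∀ d ∈ S, d ≠ 0 ∧ (d : ℝ) ≤ D ∧ (∀ p : ℕ, p.Prime → p ∣ d → p ∈ P) ∧ |a d| ≤ Am P |k| d) ∧
    ∀ t, F t = ∑ d ∈ S, (a d : ℂ) * chi t d

theorem good_of_inj {ι : Type} (X : Finset ι) (d : ι → ℕ) (W : ι → ℝ) (hinj : Set.InjOn d X)
    {P : Finset ℕ} {k D : ℝ} (h : ∀ x ∈ X, d x ≠ 0 ∧ (d x : ℝ) ≤ D ∧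
      (∀ p : ℕ, p.Prime → p ∣ d x → p ∈ P) ∧ |W x| ≤ Am P |k| (d x)) {F : ℝ → ℂ}
    (hF : ∀ t, F t = ∑ x ∈ X, (W x : ℂ) * chi t (d x)) : Good P k D F := by
  classical
  obtain ⟨a, ha⟩ : ∃ a : ℕ → ℝ, ∀ m, a m = ∑ x ∈ X.filter fun x => d x = m, W x :=
    ⟨_, fun _ => rfl⟩
  have hax : ∀ x ∈ X, a (d x) = W x := by
    intro x hx
    rw [ha, sum_eq_single x]
    · intro y hy hyx
      rw [mem_filter] at hy
      exact absurd (hinj hy.1 hx hy.2) hyx
    · intro hx'
      exact absurd (show x ∈ X.filter fun y => d y = d x from mem_filter.mpr ⟨hx, rfl⟩) hx'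
  refine ⟨X.image d, a, ?_, fun t => ?_⟩
  · intro m hm
    rw [mem_image] at hm
    obtain ⟨x, hx, rfl⟩ := hm
    rw [hax x hx]
    exact h x hx
  · rw [sum_image hinj, hF t]
    exact sum_congr rfl fun x hx => by rw [hax x hx]

/-! ### one block -/

theorem fac_prod {P : Finset ℕ} (hP : ∀ p ∈ P, p.Prime) (v : ℕ → ℕ) (q : ℕ) :
    (∏ p ∈ P, p ^ v p).factorization q = if q ∈ P then v q else 0 := by
  classical
  rw [Nat.factorization_prod fun p hp => pow_ne_zero _ (hP p hp).ne_zero]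
  rw [Finsupp.finsetSum_apply]
  have h1 : ∀ p ∈ P, ((p ^ v p).factorization) q = if p = q then v q else 0 := by
    intro p hp
    rw [(hP p hp).factorization_pow, Finsupp.single_apply]
    split_ifs with h
    · rw [h]
    · rfl
  rw [sum_congr rfl h1, sum_ite_eq']

theorem prod_ne_zero' {P : Finset ℕ} (hP : ∀ p ∈ P, p.Prime) (v : ℕ → ℕ) :
    ∏ p ∈ P, p ^ v p ≠ 0 := prod_ne_zero_iff.mpr fun p hp => pow_ne_zero _ (hP p hp).ne_zero

theorem mem_of_dvd {P : Finset ℕ} (hP : ∀ p ∈ P, p.Prime) (v : ℕ → ℕ) {q : ℕ} (hq : q.Prime)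
    (h : q ∣ ∏ p ∈ P, p ^ v p) : q ∈ P := by
  obtain ⟨p, hp, h1⟩ := (Prime.dvd_finsetProd_iff hq.prime _).mp h
  have h2 := hq.dvd_of_dvd_pow h1
  rw [(Nat.prime_dvd_prime_iff_eq hq (hP p hp)).mp h2]
  exact hp

theorem Am_eq {P : Finset ℕ} {a : ℝ} {d : ℕ} (hd : d ≠ 0)
    (h : ∀ p : ℕ, p.Prime → p ∣ d → p ∈ P) : Am P a d =
      ∏ p ∈ d.primeFactors, a ^ (d.factorization p) / ((d.factorization p).factorial : ℝ) := by
  unfold Am
  rw [if_pos ⟨hd, h⟩]

theorem Am_prod {P : Finset ℕ} (hP : ∀ p ∈ P, p.Prime) (a : ℝ) (v : ℕ → ℕ) :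
    Am P a (∏ p ∈ P, p ^ v p) = ∏ p ∈ P, a ^ v p / ((v p).factorial : ℝ) := by
  rw [Am_eq (prod_ne_zero' hP v) fun q hq h => mem_of_dvd hP v hq h]
  have h1 : ∀ p ∈ P, a ^ ((∏ p ∈ P, p ^ v p).factorization p) /
      (((∏ p ∈ P, p ^ v p).factorization p).factorial : ℝ) = a ^ v p / ((v p).factorial : ℝ) := by
    intro p hp
    rw [fac_prod hP, if_pos hp]
  rw [← prod_congr rfl h1]
  refine prod_subset ?_ ?_
  · intro q hq
    exact mem_of_dvd hP v (Nat.prime_of_mem_primeFactors hq) (Nat.dvd_of_mem_primeFactors hq)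
  · intro q _ hq
    rw [← Nat.support_factorization, Finsupp.notMem_support_iff] at hq
    rw [hq, pow_zero, Nat.factorial_zero, Nat.cast_one, div_one]

theorem good_block {P : Finset ℕ} (hP : ∀ p ∈ P, p.Prime) (K : ℕ) (k B : ℝ) (hB : 1 ≤ B)
    (hPB : ∀ p ∈ P, (p : ℝ) ≤ B) :
    Good P k (B ^ K) fun t => NC K k (PI P (1 / 2 + t * Complex.I)) := by
  classical
  refine good_of_inj ((range (K + 1)).sigma fun j => piAntidiag P j)
    (fun x => ∏ p ∈ P, p ^ x.2 p) (fun x => ∏ p ∈ P, k ^ x.2 p / ((x.2 p).factorial : ℝ))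
    ?_ ?_ ?_
  · rintro ⟨j, v⟩ hv ⟨j', v'⟩ hv' heq
    rw [mem_coe, mem_sigma, mem_piAntidiag] at hv hv'
    simp only at heq hv hv'
    have h1 : v = v' := by
      funext q
      by_cases hq : q ∈ P
      · have h2 : (∏ p ∈ P, p ^ v p).factorization q = (∏ p ∈ P, p ^ v' p).factorization q := by
          rw [heq]
        rwa [fac_prod hP, fac_prod hP, if_pos hq, if_pos hq] at h2
      · have h3 : v q = 0 := by
          by_contra h
          exact hq (hv.2.2 q h)
        have h4 : v' q = 0 := by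
          by_contra h
          exact hq (hv'.2.2 q h)
        rw [h3, h4]
    subst h1
    have h5 : j = j' := hv.2.1.symm.trans hv'.2.1
    subst h5
    rfl
  · rintro ⟨j, v⟩ hv
    rw [mem_sigma, mem_piAntidiag, mem_range] at hv
    simp only at hv ⊢
    refine ⟨prod_ne_zero' hP v, ?_, fun q hq h => mem_of_dvd hP v hq h, ?_⟩
    · push_cast
      calc ∏ p ∈ P, (p : ℝ) ^ v p ≤ ∏ p ∈ P, B ^ v p :=
            prod_le_prod (fun p _ => by positivity)
              fun p hp => pow_le_pow_left₀ (Nat.cast_nonneg p) (hPB p hp) _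
        _ = B ^ ∑ p ∈ P, v p := prod_pow_eq_pow_sum _ _ _
        _ ≤ B ^ K := pow_le_pow_right₀ hB (by rw [hv.2.1]; omega)
    · rw [Am_prod hP, abs_prod]
      refine le_of_eq (prod_congr rfl fun p _ => ?_)
      rw [abs_div, abs_pow, abs_of_pos (show (0 : ℝ) < ((v p).factorial : ℝ) by
        exact_mod_cast (v p).factorial_pos)]
  · intro t
    unfold NC PI
    rw [sum_sigma]
    refine sum_congr rfl fun j _ => ?_
    rw [sum_pow_eq_sum_piAntidiag, mul_sum]
    refine sum_congr rfl fun v hv => ?_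
    rw [mem_piAntidiag] at hv
    have h1 : chi t (∏ p ∈ P, p ^ v p) =
        ∏ p ∈ P, ((p : ℂ) ^ (-(1 / 2 + (t : ℂ) * Complex.I))) ^ v p := by
      rw [map_prod]
      exact prod_congr rfl fun p _ => by rw [map_pow]; rfl
    simp only
    rw [h1]
    have h2 : (∏ p ∈ P, ((v p).factorial : ℂ)) * (Nat.multinomial P v : ℂ) =
        (j.factorial : ℂ) := by
      have h3 := Nat.multinomial_spec P v
      rw [hv.1] at h3
      exact_mod_cast h3
    have h4 : (j.factorial : ℂ) ≠ 0 := by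
      exact_mod_cast (j.factorial_pos).ne'
    have h5 : (∏ p ∈ P, ((v p).factorial : ℂ)) ≠ 0 :=
      prod_ne_zero_iff.mpr fun p _ => by exact_mod_cast ((v p).factorial_pos).ne'
    have h6 : ((∏ p ∈ P, k ^ v p / ((v p).factorial : ℝ) : ℝ) : ℂ) =
        (k : ℂ) ^ j / (∏ p ∈ P, ((v p).factorial : ℂ)) := by
      push_cast
      rw [prod_div_distrib, prod_pow_eq_pow_sum, hv.1]
    rw [h6]
    have h7 : (k : ℂ) ^ j / (j.factorial : ℂ) * (Nat.multinomial P v : ℂ) =
        (k : ℂ) ^ j / (∏ p ∈ P, ((v p).factorial : ℂ)) := by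
      rw [← h2]
      have h8 : (Nat.multinomial P v : ℂ) ≠ 0 := by
        intro h
        rw [h, mul_zero] at h2
        exact h4 h2.symm
      field_simp
    rw [← h7]
    ring

/-! ### products of blocks -/

theorem cop {P P' : Finset ℕ} (hdj : Disjoint P P') {d e : ℕ}
    (hd : ∀ p : ℕ, p.Prime → p ∣ d → p ∈ P) (he : ∀ p : ℕ, p.Prime → p ∣ e → p ∈ P') :
    Nat.Coprime d e := by
  apply Nat.coprime_of_dvd
  intro p hp h1 h2
  exact (Finset.disjoint_left.mp hdj) (hd p hp h1) (he p hp h2)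

theorem Am_mul {P P' : Finset ℕ} (hdj : Disjoint P P') {a : ℝ} {d e : ℕ} (hd0 : d ≠ 0)
    (he0 : e ≠ 0) (hd : ∀ p : ℕ, p.Prime → p ∣ d → p ∈ P)
    (he : ∀ p : ℕ, p.Prime → p ∣ e → p ∈ P') :
    Am (P ∪ P') a (d * e) = Am P a d * Am P' a e := by
  classical
  have hc := cop hdj hd he
  rw [Am_eq hd0 hd, Am_eq he0 he, Am_eq (mul_ne_zero hd0 he0) (by
    intro p hp h
    rcases hp.dvd_mul.mp h with h | h
    · exact mem_union_left _ (hd p hp h)
    · exact mem_union_right _ (he p hp h))]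
  rw [hc.primeFactors_mul, prod_union hc.disjoint_primeFactors, Nat.factorization_mul hd0 he0]
  congr 1
  · refine prod_congr rfl fun p hp => ?_
    have h1 : e.factorization p = 0 := by
      apply Nat.factorization_eq_zero_of_not_dvd
      intro h
      exact (Finset.disjoint_left.mp hdj)
        (hd p (Nat.prime_of_mem_primeFactors hp) (Nat.dvd_of_mem_primeFactors hp))
        (he p (Nat.prime_of_mem_primeFactors hp) h)
    rw [Finsupp.add_apply, h1, add_zero]
  · refine prod_congr rfl fun p hp => ?_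
    have h1 : d.factorization p = 0 := by
      apply Nat.factorization_eq_zero_of_not_dvd
      intro h
      exact (Finset.disjoint_left.mp hdj) (hd p (Nat.prime_of_mem_primeFactors hp) h)
        (he p (Nat.prime_of_mem_primeFactors hp) (Nat.dvd_of_mem_primeFactors hp))
    rw [Finsupp.add_apply, h1, zero_add]

theorem Am_nonneg (P : Finset ℕ) {a : ℝ} (ha : 0 ≤ a) (d : ℕ) : 0 ≤ Am P a d := by
  unfold Am
  split_ifs
  · exact prod_nonneg fun p _ => by positivity
  · exact le_rfl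

theorem good_mul {P P' : Finset ℕ} (hdj : Disjoint P P') {k D D' : ℝ} (hD : 0 ≤ D)
    {F G : ℝ → ℂ} (hF : Good P k D F) (hG : Good P' k D' G) :
    Good (P ∪ P') k (D * D') fun t => F t * G t := by
  classical
  obtain ⟨S, a, hS, hF⟩ := hF
  obtain ⟨S', b, hS', hG⟩ := hG
  refine good_of_inj (S ×ˢ S') (fun x => x.1 * x.2) (fun x => a x.1 * b x.2) ?_ ?_ ?_
  · rintro ⟨d, e⟩ hde ⟨d', e'⟩ hde' heq
    rw [mem_coe, mem_product] at hde hde'
    simp only at heq hde hde'
    obtain ⟨d0, -, dP, -⟩ := hS d hde.1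
    obtain ⟨d0', -, dP', -⟩ := hS d' hde'.1
    obtain ⟨e0, -, eP, -⟩ := hS' e hde.2
    obtain ⟨e0', -, eP', -⟩ := hS' e' hde'.2
    have h1 : d ∣ d' := (cop hdj dP eP').dvd_of_dvd_mul_right ⟨e, heq.symm⟩
    have h2 : d' ∣ d := (cop hdj dP' eP).dvd_of_dvd_mul_right ⟨e', heq⟩
    have h3 : d = d' := Nat.dvd_antisymm h1 h2
    subst h3
    have h4 : e = e' := Nat.eq_of_mul_eq_mul_left (Nat.pos_of_ne_zero d0) heq
    subst h4
    rfl
  · rintro ⟨d, e⟩ hde
    rw [mem_product] at hde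
    simp only at hde ⊢
    obtain ⟨d0, dD, dP, da⟩ := hS d hde.1
    obtain ⟨e0, eD, eP, ea⟩ := hS' e hde.2
    refine ⟨mul_ne_zero d0 e0, ?_, ?_, ?_⟩
    · push_cast
      exact mul_le_mul dD eD (Nat.cast_nonneg _) hD
    · intro p hp h
      rcases hp.dvd_mul.mp h with h | h
      · exact mem_union_left _ (dP p hp h)
      · exact mem_union_right _ (eP p hp h)
    · rw [abs_mul, Am_mul hdj d0 e0 dP eP]
      exact mul_le_mul da ea (abs_nonneg _) (Am_nonneg P (abs_nonneg k) d)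
  · intro t
    rw [hF t, hG t, sum_mul_sum, sum_product]
    refine sum_congr rfl fun d _ => sum_congr rfl fun e _ => ?_
    simp only
    rw [map_mul]
    push_cast
    ring

theorem good_one (k : ℝ) : Good ∅ k 1 fun _ => 1 := by
  refine ⟨{1}, fun _ => 1, ?_, fun t => ?_⟩
  · intro d hd
    rw [mem_singleton] at hd
    subst hd
    have h1 : ∀ p : ℕ, p.Prime → p ∣ 1 → p ∈ (∅ : Finset ℕ) := fun p hp h =>
      absurd (Nat.dvd_one.mp h) hp.ne_one
    refine ⟨one_ne_zero, by rw [Nat.cast_one], h1, ?_⟩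
    rw [Am_eq one_ne_zero h1, Nat.primeFactors_one, prod_empty, abs_one]
  · rw [sum_singleton, map_one, Complex.ofReal_one, mul_one]

theorem good_blocks {J : ℕ} {I : ℕ → Finset ℕ} {B : ℕ → ℝ}
    (hI : ∀ i, ∀ p ∈ I i, p.Prime ∧ (p : ℝ) ≤ B i) (hdj : ∀ i j, i < j → Disjoint (I i) (I j))
    (hB : ∀ i < J, 1 ≤ B i) (K : ℕ → ℕ) (k : ℝ) :
    Good (PJ J I) k (∏ i ∈ range J, B i ^ K i) fun t => ∏ i ∈ range J, NC (K i) k (zz I t i) := by
  classical
  induction J with
  | zero =>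
    simp only [range_zero, prod_empty]
    exact good_one k
  | succ J ih =>
    have h1 := ih fun i hi => hB i (by omega)
    have h2 := good_block (fun p hp => (hI J p hp).1) (K J) k (B J) (hB J (by omega))
      fun p hp => (hI J p hp).2
    have h3 : Disjoint (PJ J I) (I J) := by
      unfold PJ
      rw [disjoint_biUnion_left]
      intro i hi
      exact hdj i J (mem_range.mp hi)
    have h4 := good_mul h3 (prod_nonneg fun i hi => by
      have := hB i (by have := mem_range.mp hi; omega)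
      positivity) h1 h2
    have h5 : PJ (J + 1) I = PJ J I ∪ I J := by
      unfold PJ
      rw [range_add_one, biUnion_insert, union_comm]
    rw [h5, prod_range_succ]
    have h6 : (fun t => ∏ i ∈ range (J + 1), NC (K i) k (zz I t i)) =
        fun t => (∏ i ∈ range J, NC (K i) k (zz I t i)) *
          NC (K J) k (PI (I J) (1 / 2 + (t : ℂ) * Complex.I)) := by
      funext t
      rw [prod_range_succ]
      rfl
    rw [h6]
    exact h4

/-- **COEF.** -/
theorem coef : P_COEF := by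
  classical
  intro n _
  refine ⟨80, by norm_num, ?_⟩
  intro Rs c e y P₀ J I k _ hC _
  obtain ⟨S, a, hS, hF⟩ := good_blocks (J := J) (I := I) (B := bb y)
    (fun i p hp => ⟨(hC.rg.pr i p hp).1, (hC.rg.pr i p hp).2.2⟩) hC.rg.dj
    (fun i hi => le_trans (by norm_num) (hC.rg.b10 i hi)) (fun i => KK n Rs i) k
  have hy : 1 ≤ y := le_trans (by norm_num) hC.y1
  have hly : 0 ≤ Real.log y := Real.log_nonneg hy
  have hD : ∏ i ∈ range J, bb y i ^ KK n Rs i ≤
      Real.exp (80 * (n * ((Rs:ℝ) + 1) * Real.log y)) := by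
    have h1 : ∀ i ∈ range J, bb y i ^ KK n Rs i =
        Real.exp (40 * n * Real.log y * (((Rs:ℝ) + i) * (1 / 4) ^ i)) := by
      intro i _
      unfold bb
      rw [← Real.exp_nat_mul]
      congr 1
      unfold KK RR
      push_cast
      ring
    rw [prod_congr rfl h1, ← Real.exp_sum, ← mul_sum]
    apply Real.exp_le_exp.mpr
    have h2 := geo_sum Rs J
    calc 40 * n * Real.log y * ∑ i ∈ range J, ((Rs:ℝ) + i) * (1 / 4) ^ i ≤
        40 * n * Real.log y * (2 * ((Rs:ℝ) + 1)) := mul_le_mul_of_nonneg_left h2 (by positivity)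
      _ = _ := by ring
  have hexp1 : (1:ℝ) ≤ Real.exp (80 * (n * ((Rs:ℝ) + 1) * Real.log y)) :=
    Real.one_le_exp (by positivity)
  refine ⟨⌊Real.exp (80 * (n * ((Rs:ℝ) + 1) * Real.log y))⌋₊, fun d => if d ∈ S then a d else 0,
    ?_, ?_, ?_, ?_⟩
  · rw [Nat.one_le_floor_iff]
    exact hexp1
  · exact Nat.floor_le (Real.exp_pos _).le
  · intro d
    simp only
    split_ifs with h
    · exact (hS d h).2.2.2
    · rw [abs_zero]
      exact Am_nonneg _ (abs_nonneg k) d
  · intro t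
    have h1 : AZ n Rs J k (zz I t) = ∑ d ∈ S, (a d : ℂ) * chi t d := hF t
    rw [h1]
    have h2 : S ⊆ Icc 1 ⌊Real.exp (80 * (n * ((Rs:ℝ) + 1) * Real.log y))⌋₊ := by
      intro d hd
      rw [mem_Icc]
      exact ⟨Nat.pos_of_ne_zero (hS d hd).1, Nat.le_floor ((hS d hd).2.1.trans hD)⟩
    rw [← sum_subset h2]
    · refine sum_congr rfl fun d hd => ?_
      simp only
      rw [if_pos hd]
      rfl
    · intro d _ hd
      simp only
      rw [if_neg hd, Complex.ofReal_zero, zero_mul]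

end

end Pool.Agent.Q210.MC
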