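import Pool.Agent.Q286.MC.Defs
import Pool.Agent.TH806.LK.Fin

set_option autoImplicit false

/-! JOBS TLB and FPF of the project MC (helper286), row MP_f9aece_nt: the lower bound for the twisted first moment of
zeta with a function of the small primes. -/

namespace Pool.Agent.Q210.MC

open Finset Filter Topology MeasureTheory
open Pool.Agent.W184.NZ (wz wz_int mh)
open Pool.Agent.TH806 Pool.Agent.TH806.LK
open Pool.Agent.H306R2.SM (om cl Yf)
open Pool.Agent.H262R4.TM (Rng Ck)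
open Pool.Agent.Q286.UZ Pool.Agent.Q286.SB Pool.Agent.Q286.MC TH803TW

/-! ### Fourier coefficients of the Euler product -/

lemma PF_cont (M : ℕ) : Continuous (PF M) := by
  unfold PF
  refine continuous_finsetProd _ fun j _ => ?_
  exact Continuous.inv₀ (continuous_const.sub (continuous_const.mul ((map_continuous _).comp (continuous_apply j))))
    fun x => den_ne (rr_nonneg M j) (rr_lt M j) (x j) (-1)

lemma int_P1 {r : ℝ} (h0 : 0 ≤ r) (h1 : r < 1) (n : ℤ) :
    ∫ x : UnitAddCircle, fourier n x * (1 - (r : ℂ) * fourier (-1) x)⁻¹ ∂AddCircle.haarAddCircle =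
      if 0 ≤ n then (r : ℂ) ^ n.toNat else 0 := by
  rw [int_one h0 h1]
  by_cases hn : 0 ≤ n
  · rw [if_pos hn]
    exact tsum_single_ite _ fun m => by omega
  · rw [if_neg hn]
    exact tsum_none_ite fun m => by omega

/-- JOB FPF -/
theorem fpf : P_FPF := by
  intro M m
  have e : ∀ x : UnitAddTorus (Fin (kk M)), UnitAddTorus.mFourier m x * PF M x =
      ∏ j, (fourier (m j) (x j) * (1 - (rr M j : ℂ) * fourier (-1) (x j))⁻¹) := by
    intro x
    unfold UnitAddTorus.mFourier PF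
    simp only [ContinuousMap.coe_mk]
    rw [Finset.prod_mul_distrib]
  unfold mF1
  simp only [e]
  unfold haarT
  rw [integral_fintype_prod_eq_prod (𝕜 := ℂ)
    (fun j => fun y : UnitAddCircle => (fourier (m j) y * (1 - (rr M j : ℂ) * fourier (-1) y)⁻¹))]
  exact Finset.prod_congr rfl fun j _ => int_P1 (rr_nonneg M j) (rr_lt M j) _

/-- the twist by a monomial -/
lemma wF_prod (M : ℕ) (m : Fin (kk M) → ℤ) :
    ((((Aq M (-m) : ℝ) * Aq M m) ^ ((1 / 2) : ℝ) * wF (Aq M (-m), Aq M m) : ℝ) : ℂ) =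
      ∏ j, if 0 ≤ m j then (rr M j : ℂ) ^ (m j).toNat else 0 := by
  by_cases hm : ∀ j, 0 ≤ m j
  · have hA : Aq M (-m) = 1 := by
      unfold Aq
      refine Finset.prod_eq_one fun j _ => ?_
      have : ((-m) j).toNat = 0 := Int.toNat_of_nonpos (by rw [Pi.neg_apply]; linarith [hm j])
      rw [this, pow_zero]
    have hB : (0:ℝ) < Aq M m := by exact_mod_cast Aq_pos M m
    have h1 := prod_rr M m
    have e1 : ∏ j, (if 0 ≤ m j then (rr M j : ℂ) ^ (m j).toNat else 0) =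
        ((∏ j, (rr M j) ^ (m j).natAbs : ℝ) : ℂ) := by
      push_cast
      refine Finset.prod_congr rfl fun j _ => ?_
      rw [if_pos (hm j)]
      congr 1
      have := hm j
      omega
    rw [e1, h1]
    congr 1
    unfold wF
    simp only [hA, one_dvd, if_true, Nat.cast_one, one_mul]
    rw [one_div ((Aq M m : ℕ) : ℝ), ← Real.rpow_neg_one ((Aq M m : ℕ) : ℝ), ← Real.rpow_add hB]
    norm_num
  · push Not at hm
    obtain ⟨j, hj⟩ := hm
    have e1 : ∏ j, (if 0 ≤ m j then (rr M j : ℂ) ^ (m j).toNat else 0) = 0 :=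
      Finset.prod_eq_zero (Finset.mem_univ j) (if_neg (by omega))
    rw [e1]
    have hnd : ¬ (Aq M (-m) ∣ Aq M m) := by
      intro hd
      have h1 : Aq M (-m) = 1 := (AB_cop M m).symm.eq_one_of_dvd hd
      have h2 : pp M j ∣ Aq M (-m) := by
        unfold Aq
        refine (dvd_pow_self _ ?_).trans (Finset.dvd_prod_of_mem _ (Finset.mem_univ j))
        rw [Pi.neg_apply]
        omega
      rw [h1] at h2
      exact (pp_prime M j).one_lt.ne' (Nat.dvd_one.1 h2)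
    unfold wF
    simp [hnd]

lemma Aq_pr (M : ℕ) (m : Fin (kk M) → ℤ) {p : ℕ} (hp : p.Prime) (h : p ∣ Aq M m) : p ≤ M := by
  unfold Aq at h
  obtain ⟨j, _, hj⟩ := (Prime.dvd_finsetProd_iff hp.prime _).1 h
  have h1 := hp.dvd_of_dvd_pow hj
  have h2 := (Nat.prime_dvd_prime_iff_eq hp (pp_prime M j)).1 h1
  rw [h2]
  have h3 := pp_mem M j
  unfold ZU.pr at h3
  simp only [Finset.mem_filter, Finset.mem_Icc] at h3
  omega

lemma mF_norm {M : ℕ} (n : Fin (kk M) → ℤ) (x : UnitAddTorus (Fin (kk M))) :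
    ‖UnitAddTorus.mFourier n x‖ = 1 := by
  unfold UnitAddTorus.mFourier
  simp only [ContinuousMap.coe_mk]
  rw [norm_prod]
  exact Finset.prod_eq_one fun j _ => f1_norm _ _

/-! ### the absolute bound -/

lemma BK_cont (hPT : P_PT) {n Rs J : ℕ} {I : ℕ → Finset ℕ} (hI : ∀ i, ∀ p ∈ I i, p.Prime) (k u : ℝ) :
    Continuous (BK n Rs J I k u) ∧ ∃ B : ℝ, ∀ t, ‖BK n Rs J I k u t‖ ≤ B := by
  obtain ⟨hP1, hP2⟩ := hPT
  have hhc : Continuous hh := by unfold hh; fun_prop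
  obtain ⟨cA, cD, cz, Bk, hBk⟩ := hP1 n Rs J I k u hh hI hhc
  obtain ⟨cA', _, _, Bm, hBm⟩ := hP1 n Rs J I (k - 1) u hh hI hhc
  refine ⟨?_, Bk * Bm * Bk ^ 2, fun t => ?_⟩
  · unfold BK
    exact ((Complex.continuous_conj.comp cA).mul cA').mul (Complex.continuous_ofReal.comp (cD.norm.pow 2))
  · unfold BK
    rw [norm_mul, norm_mul, RCLike.norm_conj, Complex.norm_real, Real.norm_of_nonneg (by positivity)]
    have h1 := (hBk t).1
    have h2 := (hBm t).1
    have h3 := (hBk t).2.1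
    have h0 : 0 ≤ Bk := (norm_nonneg _).trans h1
    have h0' : 0 ≤ Bm := (norm_nonneg _).trans h2
    gcongr

lemma BK_int (hPT : P_PT) {n Rs J : ℕ} {I : ℕ → Finset ℕ} (hI : ∀ i, ∀ p ∈ I i, p.Prime)
    {κ : ℕ} {T : ℝ} (hδ : 0 < (κ:ℝ) / T) {k u : ℝ} {F : ℝ → ℂ} {C : ℝ} (hFc : Continuous F) (hF : ∀ t, ‖F t‖ ≤ C) :
    IntegrableOn (fun t => ((om κ (κ / T) t : ℝ) : ℂ) * (riemannZeta (cl t) * (F t * BK n Rs J I k u t)))
      (Set.Ioi 0) := by
  obtain ⟨hc, B, hB⟩ := BK_cont (n := n) (Rs := Rs) (J := J) hPT hI k u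
  have h1 := Pool.Agent.TH986.LK_LB.omz_int (κ := κ) (T := T) hδ
  have h2 : Integrable (fun t => (((om κ (κ / T) t : ℝ) : ℂ) * riemannZeta (cl t)) * (F t * BK n Rs J I k u t))
      (volume.restrict (Set.Ioi 0)) := h1.mul_bdd (c := C * B)
    (hFc.mul hc).aestronglyMeasurable (Eventually.of_forall fun t => by
      rw [norm_mul]
      exact mul_le_mul (hF t) (hB t) (norm_nonneg _) ((norm_nonneg _).trans (hF t)))
  refine (integrable_congr (Eventually.of_forall fun t => ?_)).1 h2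
  beta_reduce
  ring

lemma BK_le (hPT : P_PT) {n Rs J : ℕ} {I : ℕ → Finset ℕ} (hI : ∀ i, ∀ p ∈ I i, p.Prime)
    {κ : ℕ} {T : ℝ} (hδ : 0 < (κ:ℝ) / T) {k u : ℝ} {F : ℝ → ℂ} {κ₁ : ℝ} (hF : ∀ t, ‖F t‖ ≤ κ₁) :
    ‖∫ t in Set.Ioi (0:ℝ), ((om κ (κ / T) t : ℝ) : ℂ) * (riemannZeta (cl t) * (F t * BK n Rs J I k u t))‖ ≤
      κ₁ * (1 / 2 * (∫ t in Set.Ioi (0:ℝ), wz κ T t * AD n Rs J I (k - 1) u t) +
        1 / 2 * ∫ t in Set.Ioi (0:ℝ), om κ (κ / T) t * AD n Rs J I k u t) := by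
  obtain ⟨hP1, hP2⟩ := hPT
  have hhc : Continuous hh := by unfold hh; fun_prop
  obtain ⟨cA, cD, cz, Bk, hBk⟩ := hP1 n Rs J I k u hh hI hhc
  obtain ⟨cA', _, _, Bm, hBm⟩ := hP1 n Rs J I (k - 1) u hh hI hhc
  have cAD : Continuous (AD n Rs J I k u) := by
    unfold AD; exact (cA.norm.pow 2).mul (cD.norm.pow 2)
  have cAD' : Continuous (AD n Rs J I (k - 1) u) := by
    unfold AD; exact (cA'.norm.pow 2).mul (cD.norm.pow 2)
  have AD0 : ∀ a t, 0 ≤ AD n Rs J I a u t := fun a t => by unfold AD; positivity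
  have bAD : ∀ t, AD n Rs J I k u t ≤ Bk ^ 2 * Bk ^ 2 := fun t => by
    unfold AD
    have h1 := (hBk t).1
    have h2 := (hBk t).2.1
    gcongr
  have bAD' : ∀ t, AD n Rs J I (k - 1) u t ≤ Bm ^ 2 * Bm ^ 2 := fun t => by
    unfold AD
    have h1 := (hBm t).1
    have h2 := (hBm t).2.1
    gcongr
  have iom : IntegrableOn (fun t => om κ (κ / T) t) (Set.Ioi 0) := om_int0 _ hδ
  have iF : ∀ {F : ℝ → ℝ} {C : ℝ}, Continuous F → (∀ t, |F t| ≤ C) →
      IntegrableOn (fun t => om κ (κ / T) t * F t) (Set.Ioi 0) := by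
    intro F C hF hC
    refine iom.mul_bdd (c := C) hF.aestronglyMeasurable (Eventually.of_forall fun t => ?_)
    rw [Real.norm_eq_abs]; exact hC t
  have j1 : IntegrableOn (fun t => wz κ T t * AD n Rs J I (k - 1) u t) (Set.Ioi 0) :=
    wz_int κ hδ cAD' (C := Bm ^ 2 * Bm ^ 2) fun t => by rw [abs_of_nonneg (AD0 _ _)]; exact bAD' t
  have j4 : IntegrableOn (fun t => om κ (κ / T) t * AD n Rs J I k u t) (Set.Ioi 0) :=
    iF cAD (C := Bk ^ 2 * Bk ^ 2) fun t => by rw [abs_of_nonneg (AD0 _ _)]; exact bAD t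
  have hpt : ∀ t ∈ Set.Ioi (0:ℝ),
      ‖((om κ (κ / T) t : ℝ) : ℂ) * (riemannZeta (cl t) * (F t * BK n Rs J I k u t))‖ ≤
      κ₁ * (1 / 2 * (wz κ T t * AD n Rs J I (k - 1) u t) + 1 / 2 * (om κ (κ / T) t * AD n Rs J I k u t)) := by
    intro t ht
    have hom : 0 ≤ om κ (κ / T) t := om_nn κ hδ (le_of_lt ht)
    have e1 : ‖((om κ (κ / T) t : ℝ) : ℂ) * (riemannZeta (cl t) * (F t * BK n Rs J I k u t))‖ =
        om κ (κ / T) t * (Xz t * (‖F t‖ * (‖AZ n Rs J k (zz I t)‖ * ‖AZ n Rs J (k - 1) (zz I t)‖ *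
          ‖DK n Rs J hh u (zz I t)‖ ^ 2))) := by
      unfold BK
      rw [norm_mul, norm_mul, norm_mul, norm_mul, norm_mul, RCLike.norm_conj, Complex.norm_real, Complex.norm_real,
        Real.norm_of_nonneg hom, Real.norm_of_nonneg (by positivity)]
      rfl
    have e3 : wz κ T t = om κ (κ / T) t * Xz t ^ 2 := rfl
    have hX : 0 ≤ Xz t := Xz_nonneg t
    have h1 : ‖F t‖ ≤ κ₁ := hF t
    have hk0 : 0 ≤ κ₁ := (norm_nonneg _).trans h1
    rw [e1, e3]
    unfold AD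
    generalize om κ (κ / T) t = w at hom ⊢
    generalize Xz t = X at hX ⊢
    have hA := norm_nonneg (AZ n Rs J k (zz I t))
    have hA' := norm_nonneg (AZ n Rs J (k - 1) (zz I t))
    generalize ‖AZ n Rs J k (zz I t)‖ = A at hA ⊢
    generalize ‖AZ n Rs J (k - 1) (zz I t)‖ = A' at hA' ⊢
    generalize ‖DK n Rs J hh u (zz I t)‖ = D
    calc w * (X * (‖F t‖ * (A * A' * D ^ 2))) ≤ w * (X * (κ₁ * (A * A' * D ^ 2))) := by gcongr
      _ = κ₁ * (w * D ^ 2 * ((X * A') * A)) := by ring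
      _ ≤ κ₁ * (w * D ^ 2 * (((X * A') ^ 2 + A ^ 2) / 2)) := by
          have : X * A' * A ≤ ((X * A') ^ 2 + A ^ 2) / 2 := by nlinarith [sq_nonneg (X * A' - A)]
          gcongr
      _ = _ := by ring
  have i1 := (j1.const_mul (1 / 2)).add (j4.const_mul (1 / 2))
  have h := norm_integral_le_of_norm_le (i1.const_mul κ₁) ((ae_restrict_iff' measurableSet_Ioi).2
    (Eventually.of_forall fun t ht => by simpa only [Pi.add_apply] using hpt t ht))
  refine h.trans (le_of_eq ?_)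
  rw [integral_const_mul, integral_add' (j1.const_mul (1 / 2)) (j4.const_mul (1 / 2)), integral_const_mul,
    integral_const_mul]

/-! ### the limit functional -/

lemma mF1_int {M : ℕ} {g : UnitAddTorus (Fin (kk M)) → ℂ} (hg : Continuous g) :
    Integrable (fun x => g x * PF M x) (haarT (kk M)) := int_contC (hg.mul (PF_cont M))

lemma mF1_sub {M : ℕ} {g g' : UnitAddTorus (Fin (kk M)) → ℂ} (hg : Continuous g) (hg' : Continuous g') {κ₁ : ℝ}
    (h : ∀ x, ‖g x - g' x‖ ≤ κ₁) :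
    ‖mF1 M g - mF1 M g'‖ ≤ κ₁ * ∫ x, ‖PF M x‖ ∂(haarT (kk M)) := by
  unfold mF1
  rw [← integral_sub (mF1_int hg) (mF1_int hg'), ← integral_const_mul]
  refine norm_integral_le_of_norm_le ((int_contC (PF_cont M)).norm.const_mul κ₁) (Eventually.of_forall fun x => ?_)
  rw [← sub_mul, norm_mul]
  exact mul_le_mul_of_nonneg_right (h x) (norm_nonneg _)

/-- JOB TLB -/
theorem tlb (hTM : P_TM) : P_TLB := by
  intro n c hn hc
  obtain ⟨P1, R₀, c₁, e₀, η1, hc₁, he0, he1, hη1, hLB⟩ := a_LB n c hn hc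
  obtain ⟨P2, C2, η2, hC2, hη2, hU1⟩ := a_U13.1 n c hn hc
  obtain ⟨P3, C3, η3, hC3, hη3, hU4⟩ := a_U4 n c hn hc
  obtain ⟨P4, η4, hη4, hTM⟩ := hTM n hn
  refine ⟨max (max P1 P2) (max P3 P4), R₀, c₁, e₀, min (min (min η1 η2) (min η3 η4)) 1, hc₁, he0, he1,
    lt_min (lt_min (lt_min hη1 hη2) (lt_min hη3 hη4)) one_pos, ?_⟩
  intro M h hh1 him hre κ₀ hκ₀ Rs hR0 hRs
  classical
  set QP : ℝ := ∫ x, ‖PF M x‖ ∂(haarT (kk M)) with hQP
  have hQP0 : 0 ≤ QP := integral_nonneg fun x => norm_nonneg _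
  set κ₁ : ℝ := κ₀ / (2 * (1 + QP) * (C2 + C3)) with hκ₁
  have hκ₁0 : 0 < κ₁ := by positivity
  -- approximation
  have hmem : h ∈
      (Submodule.span ℂ (Set.range <| UnitAddTorus.mFourier (d := Fin (kk M)))).topologicalClosure := by
    rw [UnitAddTorus.span_mFourier_closure_eq_top]; trivial
  have hcl : h ∈ closure ((Submodule.span ℂ (Set.range <| UnitAddTorus.mFourier (d := Fin (kk M))) :
      Submodule ℂ C(UnitAddTorus (Fin (kk M)), ℂ)) : Set C(UnitAddTorus (Fin (kk M)), ℂ)) := hmem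
  obtain ⟨p, hp, hpg⟩ := Metric.mem_closure_iff.1 hcl κ₁ hκ₁0
  obtain ⟨a, ha⟩ := (Finsupp.mem_span_range_iff_exists_finsupp).1 hp
  have hpx : ∀ x, p x = ∑ m ∈ a.support, a m * UnitAddTorus.mFourier m x := by
    intro x
    rw [← ha, Finsupp.sum, ContinuousMap.sum_apply]
    rfl
  have hdist : ∀ x, ‖h x - p x‖ ≤ κ₁ := by
    intro x
    have h1 := ContinuousMap.dist_apply_le_dist (f := h) (g := p) x
    rw [dist_eq_norm] at h1
    exact h1.trans hpg.le
  set S := a.support with hS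
  set Ch : ℝ := ∑ m ∈ S, ‖a m‖ * ((Aq M (-m) : ℝ) * Aq M m) ^ ((1 / 2) : ℝ) with hCh
  have hCh0 : 0 ≤ Ch := Finset.sum_nonneg fun m _ => by positivity
  have hfin : ∀ᶠ T : ℝ in atTop, ∀ m ∈ S, ∀ κ : ℕ, Rng T κ →
      ∀ (c e y : ℝ) (J : ℕ) (I : ℕ → Finset ℕ), Cfg c e P4 y J I → (∀ i, ∀ p ∈ I i, M < p) →
      n * ((Rs:ℝ) + 1) * Real.log y ≤ η4 * Real.log T → ∀ k u : ℝ, |k| + 1 ≤ n →
      ‖(∫ t in Set.Ioi (0:ℝ), ((om κ (κ / T) t : ℝ) : ℂ) * (riemannZeta (cl t) *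
        (mh t (Aq M (-m), Aq M m) * BK n Rs J I k u t))) - ((wF (Aq M (-m), Aq M m) : ℝ) : ℂ) *
        ∫ t in Set.Ioi (0:ℝ), ((om κ (κ / T) t : ℝ) : ℂ) * (riemannZeta (cl t) * BK n Rs J I k u t)‖ ≤
      T ^ (-(1 / 3) : ℝ) := by
    rw [Filter.eventually_all_finset]
    intro m _
    refine hTM M (Aq M (-m)) (Aq M m) (Aq_pos M _) (Aq_pos M _) (fun p hp hd => ?_) Rs hRs
    rcases (hp.dvd_mul).1 hd with h1 | h1
    · exact Aq_pr M _ hp h1
    · exact Aq_pr M _ hp h1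
  have hε0 : 0 < κ₀ / 2 * Real.exp (-c) / (Ch + 1) := by positivity
  filter_upwards [hfin, hLB Rs hR0 hRs, hU1 Rs hRs, hU4 Rs hRs,
    Pool.Agent.TH986.LK_B.small (show (0:ℝ) < 1 / 3 by norm_num) hε0,
    Real.tendsto_log_atTop.eventually_gt_atTop 1, eventually_gt_atTop (3:ℝ)]
    with T hF hLBT hU1T hU4T hsm hLT hT3 κ hκ y J I hCfg hIM hlen k hk
  have hI : ∀ i, ∀ p ∈ I i, p.Prime := fun i p hp => (hCfg.rg.pr i p hp).1
  have hT0 : 0 < T := by linarith
  have hL0 : 0 < Real.log T := by linarith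
  have hk0 : (0:ℝ) < κ := by
    have := hκ.1
    nlinarith
  have hδ : 0 < (κ:ℝ) / T := by positivity
  have hV0 : 0 ≤ VV I J := Pool.Agent.TH986.LK_B.VV_nonneg I J
  have hVl : VV I J ≤ Real.log (Real.log T) + c := Pool.Agent.TH986.LK_B.VV_le hCfg hn
    (lt_min (lt_min (lt_min hη1 hη2) (lt_min hη3 hη4)) one_pos) (min_le_right _ _) hLT hlen
  have hPT : P_PT := Pool.Agent.TH126.LK_PT.t_PT
  have hlen' : ∀ η' : ℝ, min (min (min η1 η2) (min η3 η4)) 1 ≤ η' →
      n * ((Rs:ℝ) + 1) * Real.log y ≤ η' * Real.log T := fun η' hη' =>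
    hlen.trans (mul_le_mul_of_nonneg_right hη' hL0.le)
  have l1 := hlen' η1 ((min_le_left _ _).trans ((min_le_left _ _).trans (min_le_left _ _)))
  have l2 := hlen' η2 ((min_le_left _ _).trans ((min_le_left _ _).trans (min_le_right _ _)))
  have l3 := hlen' η3 ((min_le_left _ _).trans ((min_le_right _ _).trans (min_le_left _ _)))
  have l4 := hlen' η4 ((min_le_left _ _).trans ((min_le_right _ _).trans (min_le_right _ _)))
  have c1 : Cfg c e₀ P1 y J I := hCfg.mono le_rfl ((le_max_left _ _).trans (le_max_left _ _))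
  have c2 : Cfg c 1 P2 y J I := hCfg.mono he1 ((le_max_right _ _).trans (le_max_left _ _))
  have c3 : Cfg c 1 P3 y J I := hCfg.mono he1 ((le_max_left _ _).trans (le_max_right _ _))
  have c4 : Cfg c e₀ P4 y J I := hCfg.mono le_rfl ((le_max_right _ _).trans (le_max_right _ _))
  have hkn : |k| ≤ n := by linarith
  have hkn1 : |k - 1| ≤ n := (abs_sub _ _).trans (by simpa using hk)
  set V := VV I J with hV
  set u := k * V with hu
  -- the three integrals
  set EH := ∫ t in Set.Ioi (0:ℝ), ((om κ (κ / T) t : ℝ) : ℂ) * (riemannZeta (cl t) *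
        (h (tP M t) * BK n Rs J I k u t)) with hEH
  set EP := ∫ t in Set.Ioi (0:ℝ), ((om κ (κ / T) t : ℝ) : ℂ) * (riemannZeta (cl t) *
        (p (tP M t) * BK n Rs J I k u t)) with hEP
  set E1 := ∫ t in Set.Ioi (0:ℝ), ((om κ (κ / T) t : ℝ) : ℂ) * (riemannZeta (cl t) * BK n Rs J I k u t) with hE1
  set X' := 1 / 2 * (∫ t in Set.Ioi (0:ℝ), wz κ T t * AD n Rs J I (k - 1) u t) +
        1 / 2 * ∫ t in Set.Ioi (0:ℝ), om κ (κ / T) t * AD n Rs J I k u t with hX'
  have hW0 : 0 < WW (k ^ 2) V := by unfold WW; positivity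
  have hLam0 : 0 ≤ Real.log T * Real.exp (-V) := by positivity
  -- absolute bound
  have hX : X' ≤ (C2 + C3) * ((1 + Real.log T * Real.exp (-V)) * WW (k ^ 2) V) := by
    have b1 := hU1T κ hκ y J I c2 l2 k u hkn
    have b2 := hU4T κ hκ y J I c3 l3 (k - 1) u hkn1
    have e1 : WW (2 * (k - 1) + (k - 1) ^ 2) V = Real.exp (-V) * WW (k ^ 2) V := by
      unfold WW
      rw [mul_left_comm, ← Real.exp_add]
      congr 2
      ring
    rw [← hV, e1] at b2
    have e2 : 0 ≤ C2 * WW (k ^ 2) V := by positivity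
    have e3 : 0 ≤ C3 * WW (k ^ 2) V := by positivity
    have e4 : 0 ≤ C3 * (Real.log T * Real.exp (-V)) * WW (k ^ 2) V := by positivity
    have e5 : 0 ≤ C2 * (Real.log T * Real.exp (-V)) * WW (k ^ 2) V := by positivity
    have e6 : C3 * Real.log T * (Real.exp (-V) * WW (k ^ 2) V) =
        C3 * (Real.log T * Real.exp (-V)) * WW (k ^ 2) V := by ring
    rw [e6] at b2
    rw [hX']
    nlinarith
  have hX'0 : 0 ≤ X' := by
    have := BK_le (n := n) (Rs := Rs) (J := J) (k := k) (u := u) hPT hI hδ (F := fun _ => 1) (κ₁ := 1)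
      (fun _ => by simp)
    rw [one_mul] at this
    exact (norm_nonneg _).trans this
  have hE1X : ‖E1‖ ≤ X' := by
    have := BK_le (n := n) (Rs := Rs) (J := J) (k := k) (u := u) hPT hI hδ (F := fun _ => 1) (κ₁ := 1)
      (fun _ => by simp)
    simpa only [one_mul] using this
  -- first step
  have hdc : Continuous fun t => h (tP M t) := h.continuous.comp (tP_cont M)
  have hpc : Continuous fun t => p (tP M t) := p.continuous.comp (tP_cont M)
  have hpb : ∀ t, ‖p (tP M t)‖ ≤ 1 + κ₁ := fun t => by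
    have h1 := hdist (tP M t)
    have h2 := hh1 (tP M t)
    have h3 : p (tP M t) = h (tP M t) - (h (tP M t) - p (tP M t)) := by ring
    rw [h3]
    exact (norm_sub_le _ _).trans (add_le_add h2 h1)
  have s1 : ‖EH - EP‖ ≤ κ₁ * X' := by
    have h1 := BK_le (n := n) (Rs := Rs) (J := J) (k := k) (u := u) hPT hI hδ
      (F := fun t => h (tP M t) - p (tP M t)) (fun t => hdist (tP M t))
    have e : EH - EP = ∫ t in Set.Ioi (0:ℝ), ((om κ (κ / T) t : ℝ) : ℂ) * (riemannZeta (cl t) *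
        ((h (tP M t) - p (tP M t)) * BK n Rs J I k u t)) := by
      rw [hEH, hEP, ← integral_sub (BK_int hPT hI hδ hdc (fun t => hh1 _)) (BK_int hPT hI hδ hpc hpb)]
      refine integral_congr_ae (Eventually.of_forall fun t => ?_)
      beta_reduce
      ring
    rw [e]
    exact h1
  -- second step
  have s2 : ‖EP - mF1 M p * E1‖ ≤ Ch * T ^ (-(1 / 3) : ℝ) := by
    have hmc : ∀ m : Fin (kk M) → ℤ, Continuous fun t => a m * UnitAddTorus.mFourier m (tP M t) := fun m =>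
      continuous_const.mul ((map_continuous _).comp (tP_cont M))
    have hmb : ∀ (m : Fin (kk M) → ℤ) (t : ℝ), ‖a m * UnitAddTorus.mFourier m (tP M t)‖ ≤ ‖a m‖ := fun m t => by
      rw [norm_mul, mF_norm, mul_one]
    have e1 : EP = ∑ m ∈ S, (a m * ((((Aq M (-m) : ℝ) * Aq M m) ^ ((1 / 2) : ℝ) : ℝ) : ℂ)) *
        ∫ t in Set.Ioi (0:ℝ), ((om κ (κ / T) t : ℝ) : ℂ) * (riemannZeta (cl t) *
          (mh t (Aq M (-m), Aq M m) * BK n Rs J I k u t)) := by
      have e2 : EP = ∫ t in Set.Ioi (0:ℝ), ∑ m ∈ S, ((om κ (κ / T) t : ℝ) : ℂ) * (riemannZeta (cl t) *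
          ((a m * UnitAddTorus.mFourier m (tP M t)) * BK n Rs J I k u t)) := by
        rw [hEP]
        refine integral_congr_ae (Eventually.of_forall fun t => ?_)
        beta_reduce
        rw [hpx, Finset.sum_mul, Finset.mul_sum, Finset.mul_sum]
      rw [e2, integral_finsetSum _ fun m _ => BK_int hPT hI hδ (hmc m) (hmb m)]
      refine Finset.sum_congr rfl fun m _ => ?_
      rw [← integral_const_mul]
      refine integral_congr_ae (Eventually.of_forall fun t => ?_)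
      beta_reduce
      rw [mF_eq]
      ring
    have e3 : mF1 M p = ∑ m ∈ S, (a m * ((((Aq M (-m) : ℝ) * Aq M m) ^ ((1 / 2) : ℝ) : ℝ) : ℂ)) *
        ((wF (Aq M (-m), Aq M m) : ℝ) : ℂ) := by
      have e4 : mF1 M p = ∫ x, ∑ m ∈ S, a m * (UnitAddTorus.mFourier m x * PF M x) ∂(haarT (kk M)) := by
        unfold mF1
        refine integral_congr_ae (Eventually.of_forall fun x => ?_)
        beta_reduce
        rw [hpx, Finset.sum_mul]
        exact Finset.sum_congr rfl fun m _ => by ring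
      rw [e4, integral_finsetSum _ fun m _ => (mF1_int (map_continuous _)).const_mul _]
      refine Finset.sum_congr rfl fun m _ => ?_
      rw [integral_const_mul]
      have h1 := fpf M m
      unfold mF1 at h1
      rw [h1, ← wF_prod]
      push_cast
      ring
    rw [e1, e3, Finset.sum_mul, ← Finset.sum_sub_distrib, hCh, Finset.sum_mul]
    refine (norm_sum_le _ _).trans (Finset.sum_le_sum fun m hm => ?_)
    have e9 : ∀ (A R I1 w E : ℂ), A * R * I1 - A * R * w * E = A * R * (I1 - w * E) := fun _ _ _ _ _ => by ring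
    rw [e9, norm_mul, norm_mul, Complex.norm_real, Real.norm_of_nonneg (by positivity)]
    exact mul_le_mul_of_nonneg_left (hF m hm κ hκ c e₀ y J I c4 hIM l4 k u hk) (by positivity)
  -- third step
  have s3 : ‖(mF1 M p - mF1 M h) * E1‖ ≤ κ₁ * QP * X' := by
    rw [norm_mul]
    refine mul_le_mul ?_ hE1X (norm_nonneg _) (by positivity)
    exact mF1_sub p.continuous h.continuous fun x => by rw [norm_sub_rev]; exact hdist x
  have hlow : c₁ * WW (k ^ 2) V ≤ E1.re := hLBT κ hκ y J I c1 l1 k hk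
  have hmain : (mF1 M h * E1).re = (mF1 M h).re * E1.re := by
    rw [Complex.mul_re, him, zero_mul, sub_zero]
  have hdec : EH = mF1 M h * E1 + ((EH - EP) + (EP - mF1 M p * E1) + (mF1 M p - mF1 M h) * E1) := by ring
  have hrest : ‖(EH - EP) + (EP - mF1 M p * E1) + (mF1 M p - mF1 M h) * E1‖ ≤
      κ₁ * X' + Ch * T ^ (-(1 / 3) : ℝ) + κ₁ * QP * X' :=
    (norm_add_le _ _).trans (add_le_add ((norm_add_le _ _).trans (add_le_add s1 s2)) s3)
  have hrr := (abs_le.1 ((Complex.abs_re_le_norm _).trans hrest)).1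
  have hEHre : EH.re = (mF1 M h).re * E1.re +
      ((EH - EP) + (EP - mF1 M p * E1) + (mF1 M p - mF1 M h) * E1).re := by
    conv_lhs => rw [hdec]
    rw [Complex.add_re, hmain]
  have hWg := Pool.Agent.TH986.LK_B.WW_ge0 hV0 hL0 hVl (sq_nonneg k)
  have f1 : Ch * T ^ (-(1 / 3) : ℝ) ≤ κ₀ / 2 * WW (k ^ 2) V := by
    calc Ch * T ^ (-(1 / 3) : ℝ) ≤ (Ch + 1) * (κ₀ / 2 * Real.exp (-c) / (Ch + 1) / Real.log T) :=
          mul_le_mul (by linarith) hsm (by positivity) (by positivity)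
      _ = κ₀ / 2 * (Real.exp (-c) / Real.log T) := by field_simp
      _ ≤ _ := mul_le_mul_of_nonneg_left hWg (by positivity)
  have f2 : κ₁ * X' + κ₁ * QP * X' ≤ κ₀ / 2 * ((1 + Real.log T * Real.exp (-V)) * WW (k ^ 2) V) := by
    calc κ₁ * X' + κ₁ * QP * X' = κ₁ * (1 + QP) * X' := by ring
      _ ≤ κ₁ * (1 + QP) * ((C2 + C3) * ((1 + Real.log T * Real.exp (-V)) * WW (k ^ 2) V)) :=
          mul_le_mul_of_nonneg_left hX (by positivity)
      _ = (κ₁ * (2 * (1 + QP) * (C2 + C3))) / 2 * ((1 + Real.log T * Real.exp (-V)) * WW (k ^ 2) V) := by ring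
      _ = _ := by rw [hκ₁, div_mul_cancel₀ _ (by positivity)]
  have f3 : κ₀ / 2 * WW (k ^ 2) V ≤ κ₀ / 2 * ((1 + Real.log T * Real.exp (-V)) * WW (k ^ 2) V) := by
    refine mul_le_mul_of_nonneg_left ?_ (by positivity)
    nlinarith [mul_nonneg hLam0 hW0.le]
  have f4 : (mF1 M h).re * (c₁ * WW (k ^ 2) V) ≤ (mF1 M h).re * E1.re := mul_le_mul_of_nonneg_left hlow hre
  rw [hEHre]
  have e9 : (c₁ * (mF1 M h).re - κ₀ * (1 + Real.log T * Real.exp (-V))) * WW (k ^ 2) V =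
      (mF1 M h).re * (c₁ * WW (k ^ 2) V) - (κ₀ / 2 * ((1 + Real.log T * Real.exp (-V)) * WW (k ^ 2) V) +
        κ₀ / 2 * ((1 + Real.log T * Real.exp (-V)) * WW (k ^ 2) V)) := by ring
  rw [e9]
  linarith

end Pool.Agent.Q210.MC
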